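import Pool.Agent.R468.RC.S

/-!
THE FIRST DESCENT OF THE INTEGERS WITH ONE FIXED TOTAL STOPPING TIME: the law of the descent word, in
total variation.

Author: helper468. Uses the local limit law of the total stopping time in residue classes
(Pool/Agent/R468/GL, Pool/Agent/R468/RC) and the thin sets of Pool/Agent/R344/TH.
-/

set_option autoImplicit false

namespace Pool.Agent.Results.MP_f7abf1_nt.DescentOnLevels

open Filter Topology

/-- the `3x+1` function -/
def T (n : ℕ) : ℕ := if n % 2 = 0 then n / 2 else (3 * n + 1) / 2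

/-- `k` is the total stopping time of `n` -/
def IsTotalStoppingTime (n k : ℕ) : Prop := T^[k] n = 1 ∧ ∀ j < k, T^[j] n ≠ 1

/-- `s` is the stopping time of `n`: the first time with `T^(s)(n) < n` -/
def IsStoppingTime (s n : ℕ) : Prop := T^[s] n < n ∧ ∀ i < s, n ≤ T^[i] n

/-- the parities of `n, T(n), ..., T^(s-1)(n)` -/
def word (s n : ℕ) : List ℕ := (List.range s).map fun i => T^[i] n % 2

/-- `w` is a descent word: a word over `{0, 1}` of some length `s` with `3^(w_1 + ... + w_s) < 2^s` and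
`3^(w_1 + ... + w_i) > 2^i` for `0 < i < s` -/
def IsDescentWord (w : List ℕ) : Prop := (∀ a ∈ w, a = 0 ∨ a = 1) ∧ 3 ^ w.sum < 2 ^ w.length ∧
  ∀ i, 1 ≤ i → i < w.length → 2 ^ i < 3 ^ (w.take i).sum

/-- the probability that a random word over `{0, 1}` (independent letters, `0` and `1` with probability
`1/2`) has its first descent word in `S`: the sum of `2^(-s)` over the descent words in `S`, `s` the
length -/
noncomputable def P (S : Set (List ℕ)) : ℝ :=
  ∑' s : ℕ, ({w : List ℕ | w ∈ S ∧ w.length = s ∧ IsDescentWord w}.ncard : ℝ) / 2 ^ s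

/-- the number of the positive integers `n ≤ x` with total stopping time exactly `k`, with `n ≡ r` modulo
`Q`, and with a finite stopping time `s` such that the word of the first `s` parities of `n` belongs
to `S` -/
noncomputable def N (Q r : ℕ) (x : ℝ) (k : ℕ) (S : Set (List ℕ)) : ℕ :=
  {n : ℕ | 1 ≤ n ∧ (n : ℝ) ≤ x ∧ (n ≡ r [MOD Q] ∧ ∃ s, IsStoppingTime s n ∧ word s n ∈ S) ∧
    IsTotalStoppingTime n k}.ncard

/-- the positive integers with the property `P` have the natural density `δ` -/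
def HasDensity (P : ℕ → Prop) (δ : ℝ) : Prop :=
  Tendsto (fun M : ℕ => ({n : ℕ | 1 ≤ n ∧ n ≤ M ∧ P n}.ncard : ℝ) / M) atTop (𝓝 δ)

/-- the constant of the mean value -/
noncomputable def μ : ℝ := 2 / Real.log (4 / 3)

/-- the constant of the variance -/
noncomputable def σ2 : ℝ := 2 * Real.log 3 ^ 2 / Real.log (4 / 3) ^ 3

/-- the value at `k` of the density of the normal distribution of mean `μ log x` and variance
`σ2 log x` -/
noncomputable def g (x : ℝ) (k : ℕ) : ℝ :=
  Real.exp (-(((k : ℝ) - μ * Real.log x) ^ 2 / (2 * (σ2 * Real.log x)))) /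
    Real.sqrt (2 * Real.pi * (σ2 * Real.log x))

/-- THE FIRST DESCENT ON THE LEVELS. One has `P (all words) = 1`. There are `δ` and a function `Ψ` such
that

* `0 < δ ≤ 1`, `δ` is the density of the integers of finite total stopping time, and `δ = 1` iff all
  positive integers have finite total stopping time;
* `Ψ` is continuous, has period one, lies between `δ (log 3) / 2` and `3 δ (log 3) / 2`, and its mean
  is `δ`;
* for every odd modulus `Q` and every residue `r` the number of the `n ≤ x`, `n ≡ r` modulo `Q`, with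
  total stopping time exactly `k` and descent word in `S` is
  `(1/Q) x g(x, k) (P(S) Ψ (log_3 (x / 2^k)) + o(1))`, uniformly for `|k - μ log x| ≤ K √(log x)` and
  for all sets `S` of words, for every `K`.

So the integers with a given total stopping time `k` in this range have, in total variation, the
descent words (in particular the stopping times) of random words. -/
theorem result : HasSum (fun s : ℕ =>
      ({w : List ℕ | w ∈ Set.univ ∧ w.length = s ∧ IsDescentWord w}.ncard : ℝ) / 2 ^ s) 1 ∧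
    ∃ (δ : ℝ) (Ψ : ℝ → ℝ), 0 < δ ∧ δ ≤ 1 ∧
    (δ = 1 ↔ ∀ n : ℕ, 1 ≤ n → ∃ k : ℕ, T^[k] n = 1) ∧
    HasDensity (fun n => ∃ k : ℕ, T^[k] n = 1) δ ∧
    Continuous Ψ ∧ (∀ u : ℝ, Ψ (u + 1) = Ψ u) ∧
    (∀ u : ℝ, δ * (Real.log 3 / 2) ≤ Ψ u ∧ Ψ u ≤ δ * (3 * Real.log 3 / 2)) ∧
    (∫ u in (0 : ℝ)..1, Ψ u = δ) ∧
    ∀ (Q r : ℕ), Odd Q → ∀ K ε : ℝ, 0 < ε → ∃ X₀ : ℝ, ∀ x : ℝ, X₀ ≤ x → ∀ k : ℕ,
      |(k : ℝ) - μ * Real.log x| ≤ K * Real.sqrt (Real.log x) → ∀ S : Set (List ℕ),
      |(N Q r x k S : ℝ) / (x * g x k) - P S / Q * Ψ (Real.logb 3 (x / 2 ^ k))| ≤ ε :=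
  ⟨Pool.Agent.R468.RC.z_one, Pool.Agent.R468.RC.main_desc⟩

end Pool.Agent.Results.MP_f7abf1_nt.DescentOnLevels
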