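import Pool.Agent.R468.RC.I

/-!
THE LOCAL LIMIT LAW OF THE TOTAL STOPPING TIME IN ALL RESIDUE CLASSES, WITH RUNS OF EQUAL TOTAL STOPPING
TIMES.

Author: helper468. Uses the local limit law of the total stopping time (Pool/Agent/R468/GL), the
equidistribution modulo powers of three of graded families (Pool/Agent/H499R2/LT) and the coalescence
of neighbouring trajectories (Pool/Agent/H499R2/CO).
-/

set_option autoImplicit false

namespace Pool.Agent.Results.MP_f7abf1_nt.LocalLawInClasses

open Filter Topology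

/-- the `3x+1` function -/
def T (n : ℕ) : ℕ := if n % 2 = 0 then n / 2 else (3 * n + 1) / 2

/-- `k` is the total stopping time of `n` -/
def IsTotalStoppingTime (n k : ℕ) : Prop := T^[k] n = 1 ∧ ∀ j < k, T^[j] n ≠ 1

/-- the number of the positive integers `n ≤ x` with `n ≡ r` modulo `q` such that all the integers
`n, n + 1, ..., n + h` have total stopping time exactly `k` -/
noncomputable def N (q r h : ℕ) (x : ℝ) (k : ℕ) : ℕ :=
  {n : ℕ | 1 ≤ n ∧ (n : ℝ) ≤ x ∧ n ≡ r [MOD q] ∧ ∀ i ≤ h, IsTotalStoppingTime (n + i) k}.ncard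

/-- the positive integers with the property `P` have the natural density `δ` -/
def HasDensity (P : ℕ → Prop) (δ : ℝ) : Prop :=
  Tendsto (fun M : ℕ => ({n : ℕ | 1 ≤ n ∧ n ≤ M ∧ P n}.ncard : ℝ) / M) atTop (𝓝 δ)

/-- the constant of the mean value -/
noncomputable def μ : ℝ := 2 / Real.log (4 / 3)

/-- the constant of the variance -/
noncomputable def σ2 : ℝ := 2 * Real.log 3 ^ 2 / Real.log (4 / 3) ^ 3

/-- the value at `k` of the density of the normal distribution of mean `μ log x` and variance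
`σ2 log x` -/
noncomputable def g (x : ℝ) (k : ℕ) : ℝ :=
  Real.exp (-(((k : ℝ) - μ * Real.log x) ^ 2 / (2 * (σ2 * Real.log x)))) /
    Real.sqrt (2 * Real.pi * (σ2 * Real.log x))

/-- THE LOCAL LIMIT LAW IN RESIDUE CLASSES AND FOR RUNS. There are `δ` and a function `Ψ` such that

* `0 < δ ≤ 1`, `δ` is the density of the integers of finite total stopping time, and `δ = 1` iff all
  positive integers have finite total stopping time;
* `Ψ` is continuous, has period one, lies between `δ (log 3) / 2` and `3 δ (log 3) / 2`, and its mean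
  is `δ`;
* for every modulus `q ≥ 1`, every residue `r` and every length `h ≥ 0` the number of the `n ≤ x`,
  `n ≡ r` modulo `q`, for which `n, n + 1, ..., n + h` all have total stopping time exactly `k` is
  `(1/q) x g(x, k) (Ψ (log_3 (x / 2^k)) + o(1))`, uniformly for `|k - μ log x| ≤ K √(log x)`, for
  every `K`.

So the integers with a given total stopping time `k` in this range are equidistributed in the residue
classes of every modulus (for `q = 2^s`: their parity vectors of length `s` are equidistributed), and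
almost all of them start a run of `h + 1` integers with the same total stopping time. -/
theorem result : ∃ (δ : ℝ) (Ψ : ℝ → ℝ), 0 < δ ∧ δ ≤ 1 ∧
    (δ = 1 ↔ ∀ n : ℕ, 1 ≤ n → ∃ k : ℕ, T^[k] n = 1) ∧
    HasDensity (fun n => ∃ k : ℕ, T^[k] n = 1) δ ∧
    Continuous Ψ ∧ (∀ u : ℝ, Ψ (u + 1) = Ψ u) ∧
    (∀ u : ℝ, δ * (Real.log 3 / 2) ≤ Ψ u ∧ Ψ u ≤ δ * (3 * Real.log 3 / 2)) ∧
    (∫ u in (0 : ℝ)..1, Ψ u = δ) ∧
    ∀ (q r h : ℕ), 1 ≤ q → ∀ K ε : ℝ, 0 < ε → ∃ X₀ : ℝ, ∀ x : ℝ, X₀ ≤ x → ∀ k : ℕ,
      |(k : ℝ) - μ * Real.log x| ≤ K * Real.sqrt (Real.log x) →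
      |(N q r h x k : ℝ) / (x * g x k) - 1 / q * Ψ (Real.logb 3 (x / 2 ^ k))| ≤ ε :=
  Pool.Agent.R468.RC.main_classes

end Pool.Agent.Results.MP_f7abf1_nt.LocalLawInClasses
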