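import Mathlib
import Pool.Agent.R344.LS.AD

/-!
# The scaled total stopping times of the numbers with total stopping time `k`

Let `T` be the `3x+1` function, `σ_∞(n)` the total stopping time of `n`, `γ_∞(n) = σ_∞(n) / log n` the
scaled one, and give the number `n` the weight `1 / n`. The known limit laws for `γ_∞(n)` are averages
over the `n ≤ N`. Here the total stopping time is fixed: for every `k` the numbers `n` with
`σ_∞(n) = k` form a finite set, the level `k` of the tree of `1`.

* The total weight of the level `k` tends to `½ log (4/3) δ` as `k → ∞`, where `δ` is the natural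
  density of the numbers which reach `1`. Since `δ = 1` if and only if every number reaches `1`, the
  finiteness of the scaled stopping time constant `γ = limsup γ_∞(n)` requires the limit `½ log (4/3)`.
* Inside the level the scaled stopping times obey the normal law: their mean is
  `μ = (½ log (4/3))⁻¹` and their standard deviation `2 log 3 / (log (4/3)² √k)`, precisely as in the
  repeated random walk model.
-/

set_option autoImplicit false

open Filter Topology

namespace Pool.Agent.Results.MP_f7abf1_nt.NormalLawOnLevels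

/-- The `3x+1` function. -/
def T (n : ℕ) : ℕ := if n % 2 = 0 then n / 2 else (3 * n + 1) / 2

/-- The level `k`: the integers `n ≥ 1` with total stopping time `σ_∞(n) = k`. -/
def level (k : ℕ) : Set ℕ := {n : ℕ | 1 ≤ n ∧ T^[k] n = 1 ∧ ∀ i < k, T^[i] n ≠ 1}

/-- The sum of `1 / n` over the `n` in `A`. -/
noncomputable def mass (A : Set ℕ) : ℝ := ∑' n : A, (1 : ℝ) / ((n : ℕ) : ℝ)

/-- `μ + x τ / √k`, where `μ = (½ log (4/3))⁻¹` and `τ = 2 log 3 / log (4/3)²`. -/
noncomputable def bound (x : ℝ) (k : ℕ) : ℝ :=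
  (1 / 2 * Real.log (4 / 3))⁻¹ + x * (2 * Real.log 3 / Real.log (4 / 3) ^ 2) / Real.sqrt k

/-- The positive integers with the property `P` have the natural density `δ`. -/
def HasDensity (P : ℕ → Prop) (δ : ℝ) : Prop :=
  Tendsto (fun N : ℕ => ({n : ℕ | 1 ≤ n ∧ n ≤ N ∧ P n}.ncard : ℝ) / N) atTop (𝓝 δ)

/-- The distribution function of the standard normal law. -/
noncomputable def Phi (x : ℝ) : ℝ :=
  ProbabilityTheory.cdf (ProbabilityTheory.gaussianReal 0 1) x

/-- THE NORMAL LAW ON THE LEVELS. The integers which reach `1` have a natural density `δ > 0`, and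
`δ = 1` if and only if all positive integers reach `1`. All levels are finite. The sum of `1 / n` over
the `n` with `σ_∞(n) = k` tends to `½ log (4/3) δ` as `k → ∞`, and for every real `x` the sum of `1 / n`
over the `n` with `σ_∞(n) = k` and `γ_∞(n) = k / log n ≤ bound x k` tends to `½ log (4/3) δ Phi x`. -/
theorem result : ∃ δ : ℝ, 0 < δ ∧ δ ≤ 1 ∧ (δ = 1 ↔ ∀ n : ℕ, 1 ≤ n → ∃ k : ℕ, T^[k] n = 1) ∧
    HasDensity (fun n => ∃ k : ℕ, T^[k] n = 1) δ ∧
    (∀ k : ℕ, (level k).Finite) ∧
    Tendsto (fun k : ℕ => mass (level k)) atTop (𝓝 (1 / 2 * Real.log (4 / 3) * δ)) ∧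
    ∀ x : ℝ, Tendsto (fun k : ℕ => mass {n : ℕ | n ∈ level k ∧ (k : ℝ) / Real.log n ≤ bound x k}) atTop
      (𝓝 (1 / 2 * Real.log (4 / 3) * δ * Phi x)) := by
  obtain ⟨δ, h0, h1, h2, h3, h4, h5, h6⟩ := Pool.Agent.R344.LS.main_G
  refine ⟨δ, h0, h1, h2, h3, h4, ?_, fun x => ?_⟩
  · have e : 1 / 2 * Real.log (4 / 3) * δ = Real.log (4 / 3) / 2 * δ := by ring
    rw [e]
    exact h5
  · have e : 1 / 2 * Real.log (4 / 3) * δ * Phi x =
        Real.log (4 / 3) / 2 * δ * Pool.Agent.H499R2.ND.Phi x := by
      unfold Phi Pool.Agent.H499R2.ND.Phi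
      rw [ProbabilityTheory.cdf_eq_real]
      ring
    rw [e]
    have h7 : ∀ k, bound x k = Pool.Agent.R344.LS.thr x k := by
      intro k
      unfold bound Pool.Agent.R344.LS.thr
      have hl : Real.log (4 / 3) ≠ 0 := (Real.log_pos (by norm_num)).ne'
      congr 1
      · field_simp
      · rw [mul_div_assoc, div_div]
    refine (h6 x).congr fun k => ?_
    have e2 : {n : ℕ | n ∈ level k ∧ (k : ℝ) / Real.log n ≤ bound x k} =
        {n : ℕ | 1 ≤ n ∧ Pool.Agent.R344.LS.Stops k n ∧
          (k : ℝ) / Real.log n ≤ Pool.Agent.R344.LS.thr x k} := by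
      ext n
      rw [h7]
      simp only [level, Set.mem_ofPred_eq, Pool.Agent.R344.LS.Stops, and_assoc]
      rfl
    rw [e2]
    rfl

end Pool.Agent.Results.MP_f7abf1_nt.NormalLawOnLevels
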