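import Mathlib
import Pool.Agent.R344.RL.E

/-!
# The first steps of the numbers with total stopping time `k`

Let `T` be the `3x+1` function, `σ_∞(n)` the total stopping time of `n`, and give the number `n` the
weight `1 / n`. The constant `γ_RRW` comes from the repeated random walk model, in which the steps of
the trajectory of `n` are `- log 2 + δ_i log 3` with independent fair coins `δ_i`. For the averages over
the `n ≤ N` this is a classical fact (Terras): the first `a` parities of `n` depend only on `n mod 2 ^ a`.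
Here the total stopping time is fixed: the level `k` of the tree of `1` is the finite set of the
numbers `n` with `σ_∞(n) = k`, and on these sparse sets nothing is periodic.

* On every level the parities of the first `a` steps become independent fair coins as `k → ∞`, and they
  become independent of the residue of `n` modulo `3 ^ b`, which becomes uniform, the class of `0`
  included.
* This holds locally in the number of odd steps up to the time `k`: the pattern of the first parities,
  the residue modulo `3 ^ b` and the number of the odd steps are asymptotically independent, the last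
  one being binomial, all this in total variation.
-/

set_option autoImplicit false

open Filter Topology

namespace Pool.Agent.Results.MP_f7abf1_nt.ResiduesOnLevels

/-- The `3x+1` function. -/
def T (n : ℕ) : ℕ := if n % 2 = 0 then n / 2 else (3 * n + 1) / 2

/-- The level `k`: the integers `n ≥ 1` with total stopping time `σ_∞(n) = k`. -/
def level (k : ℕ) : Set ℕ := {n : ℕ | 1 ≤ n ∧ T^[k] n = 1 ∧ ∀ i < k, T^[i] n ≠ 1}

/-- The number of the odd numbers among `n, T(n), …, T^(k-1)(n)`. -/
def odds (k n : ℕ) : ℕ := ((Finset.range k).filter fun i => T^[i] n % 2 = 1).card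

/-- The sum of `1 / n` over the `n` in `A`. -/
noncomputable def mass (A : Set ℕ) : ℝ := ∑' n : A, (1 : ℝ) / ((n : ℕ) : ℝ)

/-- The numbers whose trajectory starts with the parities `w 0, …, w (a - 1)` and which are congruent
to `r` modulo `3 ^ b`. -/
def start (a b r : ℕ) (w : ℕ → ℕ) : Set ℕ :=
  {n : ℕ | (∀ i < a, T^[i] n % 2 = w i) ∧ n % 3 ^ b = r % 3 ^ b}

/-- The positive integers with the property `P` have the natural density `δ`. -/
def HasDensity (P : ℕ → Prop) (δ : ℝ) : Prop :=
  Tendsto (fun N : ℕ => ({n : ℕ | 1 ≤ n ∧ n ≤ N ∧ P n}.ncard : ℝ) / N) atTop (𝓝 δ)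

/-- THE FIRST STEPS ON THE LEVELS. The integers which reach `1` have a natural density `δ > 0`, and
`δ = 1` if and only if all positive integers reach `1`. For all `a`, `b`, `r` and every pattern `w` of
parities the sum of `1 / n` over the `n` with `σ_∞(n) = k` in `start a b r w` tends to
`½ log (4/3) δ / (2 ^ a 3 ^ b)` as `k → ∞`. More precisely the sums over those of them with `o` odd
steps up to the time `k` differ from `½ log (4/3) δ / (2 ^ a 3 ^ b)` times `choose (k, o) / 2 ^ k` by
quantities whose absolute values have a sum over `o` which tends to `0`. -/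
theorem result : ∃ δ : ℝ, 0 < δ ∧ δ ≤ 1 ∧ (δ = 1 ↔ ∀ n : ℕ, 1 ≤ n → ∃ k : ℕ, T^[k] n = 1) ∧
    HasDensity (fun n => ∃ k : ℕ, T^[k] n = 1) δ ∧
    ∀ (a b r : ℕ) (w : ℕ → ℕ), (∀ i, w i < 2) →
      Tendsto (fun k : ℕ => mass {n : ℕ | n ∈ level k ∧ n ∈ start a b r w}) atTop
        (𝓝 (1 / 2 * Real.log (4 / 3) * δ / (2 ^ a * 3 ^ b))) ∧
      Tendsto (fun k : ℕ => ∑ o ∈ Finset.range (k + 1),
        |mass {n : ℕ | n ∈ level k ∧ odds k n = o ∧ n ∈ start a b r w} -
          1 / 2 * Real.log (4 / 3) * δ / (2 ^ a * 3 ^ b) * ((k.choose o : ℝ) / 2 ^ k)|) atTop (𝓝 0) := by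
  obtain ⟨δ, h0, h1, h2, h3, h4⟩ := Pool.Agent.R344.RL.pat_T
  refine ⟨δ, h0, h1, h2, h3, ?_⟩
  intro a b r w hw
  obtain ⟨h5, h6⟩ := h4 a b r w hw
  have e : 1 / 2 * Real.log (4 / 3) * δ / (2 ^ a * 3 ^ b) = Real.log (4 / 3) / 2 * δ / (2 ^ a * 3 ^ b) := by
    ring
  rw [e]
  constructor
  · refine h5.congr fun k => ?_
    have e2 : {n : ℕ | n ∈ level k ∧ n ∈ start a b r w} =
        {n : ℕ | 1 ≤ n ∧ Pool.Agent.R344.LS.Stops k n ∧
          ((∀ i < a, Pool.Agent.H499R2.ND.Tn^[i] n % 2 = w i) ∧ n % 3 ^ b = r % 3 ^ b)} := by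
      ext n
      simp only [level, start, Set.mem_ofPred_eq, Pool.Agent.R344.LS.Stops, and_assoc]
      rfl
    rw [e2]
    rfl
  · refine h6.congr fun k => ?_
    apply Finset.sum_congr rfl
    intro o _
    have e2 : {n : ℕ | n ∈ level k ∧ odds k n = o ∧ n ∈ start a b r w} =
        {n : ℕ | 1 ≤ n ∧ Pool.Agent.R344.LS.Stops k n ∧
          (Pool.Agent.R344.LS.odds k n = o ∧
            ((∀ i < a, Pool.Agent.H499R2.ND.Tn^[i] n % 2 = w i) ∧ n % 3 ^ b = r % 3 ^ b))} := by
      ext n
      simp only [level, start, Set.mem_ofPred_eq, Pool.Agent.R344.LS.Stops, and_assoc]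
      rfl
    rw [e2]
    rfl

end Pool.Agent.Results.MP_f7abf1_nt.ResiduesOnLevels
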